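import Pool.Agent.H41.T1.S5
import Pool.Agent.H17.NF.N

/-!
# NF: counting pairs of symmetric `3 × 3` matrices over the integers of a number field (statements)
-/

set_option autoImplicit false

namespace Pool.NF

open Polynomial Matrix Pool.HYP Pool.T1 IsDedekindDomain NumberField

section Defs

/-- The possible degrees: `d` is monotone, `sum d ≤ C`, `- C ≤ d 0 + d 2` and `- C ≤ 2 d 1`. -/
def Adn (C : ℝ) (d : Fin 3 → ℝ) : Prop :=
  Monotone d ∧ d 0 + d 1 + d 2 ≤ C ∧ -C ≤ d 0 + d 2 ∧ -C ≤ 2 * d 1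

/-- Local data: at `P` the polynomial is `(X - c) γ`. -/
structure TDat (K : Type) [Field K] [NumberField K] where
  /-- the primes -/
  T : Finset (HeightOneSpectrum (𝓞 K))
  /-- the roots -/
  c : HeightOneSpectrum (𝓞 K) → 𝓞 K
  /-- the factors of degree `2` -/
  γ : HeightOneSpectrum (𝓞 K) → (𝓞 K)[X]

variable {K : Type} [Field K] [NumberField K]

/-- The conditions on the local data. -/
def TDat.Ok (D : TDat K) : Prop :=
  ∀ P ∈ D.T, OkP 2 P.asIdeal (D.γ P) ∧ (2 : 𝓞 K) ∉ P.asIdeal ∧ 6 * D.T.card ≤ Ni P.asIdeal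

/-- The product of the norms of the primes of `T`. -/
noncomputable def TDat.N (D : TDat K) : ℕ := ∏ P ∈ D.T, Ni P.asIdeal

/-- The pairs of symmetric matrices with the bounds given by `C`, `x`, `d`, congruent to the
standard pairs at the primes of `T`. -/
def PPn (C x : ℝ) (D : TDat K) (d : Fin 3 → ℝ) :
    Set (Matrix (Fin 3) (Fin 3) (𝓞 K) × Matrix (Fin 3) (Fin 3) (𝓞 K)) :=
  {p | p.1ᵀ = p.1 ∧ p.2ᵀ = p.2 ∧ (∀ i j, p.1 i j ∈ Bx K (C * Real.exp (d i + d j))) ∧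
    (∀ i j, p.2 i j ∈ Bx K (C * x * Real.exp (d i + d j))) ∧
    ∀ P ∈ D.T, StdP 3 P.asIdeal ((Polynomial.X - Polynomial.C (D.c P)) * D.γ P) p.1 p.2}

/-- The pairs of `f`. -/
def PMn (C x : ℝ) (D : TDat K) (d : Fin 3 → ℝ) (f : (𝓞 K)[X])
    (p : Matrix (Fin 3) (Fin 3) (𝓞 K) × Matrix (Fin 3) (Fin 3) (𝓞 K)) : Prop :=
  p ∈ PPn C x D d ∧ p.1.det ≠ 0 ∧ (pen p.1 p.2).det = Polynomial.C p.1.det * f ∧
    ¬ (p.1 0 0 = 0 ∧ p.2 0 0 = 0)

/-- The polynomials of the set `F` which have a pair for `d`. -/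
def PFn (C x : ℝ) (D : TDat K) (F : Set (𝓞 K)[X]) (d : Fin 3 → ℝ) : Set (𝓞 K)[X] :=
  {f ∈ F | ∃ p, PMn C x D d f p}

/-- The polynomials of the set `F` which have a pair for some `d` with `sum d ≤ C`: the conclusion of
KEY. -/
def BFn (C x : ℝ) (D : TDat K) (F : Set (𝓞 K)[X]) : Set (𝓞 K)[X] :=
  {f ∈ F | ∃ (d : Fin 3 → ℝ) (p : _), Monotone d ∧ d 0 + d 1 + d 2 ≤ C ∧ PMn C x D d f p}

variable (K)

/-- The unipotent matrices attached to `d`. -/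
def UUn (d : Fin 3 → ℝ) : Set (Matrix (Fin 3) (Fin 3) (𝓞 K)) :=
  {u | (∀ i, u i i = 1) ∧ (∀ i j, j < i → u i j = 0) ∧
    ∀ i j, i < j → u i j ∈ Bx K (Real.exp (d j - d i))}

end Defs

/-- NST: the standard pair depends only on `f` modulo `P`. -/
def NSTStmt : Prop :=
  ∀ (R : Type) [CommRing R] (P : Ideal R) (n : ℕ) (f f' : R[X]) (G S : Matrix (Fin n) (Fin n) R),
    P ≠ ⊤ → f.Monic → f'.Monic → f.natDegree = n → f'.natDegree = n → Zer P (f - f') →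
    StdP n P f G S → StdP n P f' G S

/-- NPM: the number of the pairs, large boxes (from BXU with the product of the primes as ideal, and
`pair_cnt` of H50/NF/Cnt, `g = 1`).  Under `Adn` the sums `d i + d j` are at most `4 C`, except
`d 1 + d 2 ≤ C - d 0` and `2 d 2 ≤ 3 C - 2 d 0`; the sum of all six is `4 (d 0 + d 1 + d 2)`. -/
def NPMStmt : Prop :=
  ∀ (K : Type) [Field K] [NumberField K] (C : ℝ), 1 ≤ C →
    ∃ c : ℝ, 0 < c ∧ ∀ (D : TDat K) (d : Fin 3 → ℝ) (x : ℝ), D.Ok → Adn C d → 1 ≤ x →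
    ((D.N : ℝ) ≤ (C * x * Real.exp (2 * d 0)) ^ dg K) →
    2 ^ D.T.card * ((PPn C x D d).ncard : ℝ) * (D.N : ℝ) ^ 3 ≤
      c * x ^ (6 * dg K) * Real.exp (-(3 * dg K) * d 0)

/-- NPT: the number of the pairs, trivial bound (from BXU with the ideal `⊤`, and `sym_cnt` of
H50/NF/Cnt). -/
def NPTStmt : Prop :=
  ∀ (K : Type) [Field K] [NumberField K] (C : ℝ), 1 ≤ C →
    ∃ c : ℝ, 0 < c ∧ ∀ (D : TDat K) (d : Fin 3 → ℝ) (x : ℝ), Adn C d → 1 ≤ x →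
    1 ≤ C * x * Real.exp (2 * d 0) →
    (PPn C x D d).Finite ∧ ((PPn C x D d).ncard : ℝ) ≤
      c * x ^ (6 * dg K) * Real.exp (-(3 * dg K) * d 0)

/-- NUU: the number of the unipotent matrices (from BXU, BXL and `uni_cnt` of H50/NF/Cnt; the sum
of the three differences is `2 (d 2 - d 0) ≥ - 2 C - 4 d 0`). -/
def NUUStmt : Prop :=
  ∀ (K : Type) [Field K] [NumberField K] (C : ℝ), 1 ≤ C →
    ∃ c : ℝ, 0 < c ∧ ∀ d : Fin 3 → ℝ, Adn C d →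
    (UUn K d).Finite ∧ c * Real.exp (-(4 * dg K) * d 0) ≤ (UUn K d).ncard

/-- NCO: orbits (as CT1K of T1, `orbit_cnt` of H50/NF/Cnt: `(f, u) ↦ (uᵀ G u, uᵀ S u)` is injective;
the entries of `uᵀ G u` are sums of nine terms). -/
def NCOStmt : Prop :=
  ∀ (K : Type) [Field K] [NumberField K] (C x : ℝ) (D : TDat K) (d : Fin 3 → ℝ)
    (F : Set (𝓞 K)[X]), 0 ≤ C → 0 ≤ x → Monotone d → (∀ f ∈ F, Irreducible (fk K f)) →
    (PPn (9 * C) x D d).Finite →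
    (PFn C x D F d).Finite ∧
    (PFn C x D F d).ncard * (UUn K d).ncard ≤ (PPn (9 * C) x D d).ncard

/-- NAD: the possible degrees.  If `C exp (d i + d j) < 1`, then `G i j = 0` (NRM); ZBD of HYP for
`det G ≠ 0`; not both `G 0 0` and `S 0 0` are zero. -/
def NADStmt : Prop :=
  ∀ (K : Type) [Field K] [NumberField K] (C x : ℝ) (D : TDat K) (d : Fin 3 → ℝ) (f : (𝓞 K)[X])
    (p : Matrix (Fin 3) (Fin 3) (𝓞 K) × Matrix (Fin 3) (Fin 3) (𝓞 K)), 1 ≤ C → 1 ≤ x →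
    Monotone d → PMn C x D d f p →
    -C ≤ d 0 + d 2 ∧ -C ≤ 2 * d 1 ∧ 1 ≤ C * x * Real.exp (2 * d 0)

/-- NRO: rounding `d` up to integers (`Int.ceil`), and monotonicity in `C`. -/
def NROStmt : Prop :=
  ∀ (K : Type) [Field K] [NumberField K] (C x : ℝ) (D : TDat K) (d : Fin 3 → ℝ) (f : (𝓞 K)[X])
    (p : Matrix (Fin 3) (Fin 3) (𝓞 K) × Matrix (Fin 3) (Fin 3) (𝓞 K)), 1 ≤ C → 1 ≤ x →
    Monotone d → d 0 + d 1 + d 2 ≤ C → PMn C x D d f p →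
    ∃ e : Fin 3 → ℤ, Monotone e ∧ (e 0 : ℝ) + e 1 + e 2 ≤ C + 3 ∧
      ∀ C', C ≤ C' → PMn C' x D (fun i => (e i : ℝ)) f p

/-- NSU: the sum over the integral degrees (`q = exp n`; there are boundedly many `e` with given
`e 0`, and `e 0 ≤ C / 3`; geometric series). -/
def NSUStmt : Prop :=
  ∀ (C : ℝ) (n : ℕ), 1 ≤ C → 1 ≤ n → ∃ c : ℝ, 0 < c ∧ ∀ (A : Finset (Fin 3 → ℤ)) (y : ℝ),
    (∀ e ∈ A, Adn C (fun i => (e i : ℝ)) ∧ (e 0 : ℝ) ≤ y) →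
    ∑ e ∈ A, Real.exp (n * e 0) ≤ c * Real.exp (n * y)

/-- NFI: finitely many integral degrees. -/
def NFIStmt : Prop :=
  ∀ C y : ℝ, {e : Fin 3 → ℤ | Adn C (fun i => (e i : ℝ)) ∧ y ≤ (e 0 : ℝ)}.Finite

/-- NCNT: the final bound.  NRO, NAD: `e` satisfies `Adn (C + 3)` and `1 ≤ C x exp (2 e 0)`; take
`C' = 9 C + 3` in the other rows.  NPM if the box is large, otherwise NPT (then
`exp (2 e 0) < N^(1/n) / (C' x)`, a factor `x^(-n/2)`); NCO, NUU and NSU. -/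
def NCNTStmt : Prop :=
  ∀ (K : Type) [Field K] [NumberField K] (C : ℝ), 1 ≤ C →
    ∃ c : ℝ, 0 < c ∧ ∀ D : TDat K, D.Ok →
    ∃ x₀ : ℝ, ∀ x : ℝ, x₀ ≤ x → ∀ F : Set (𝓞 K)[X], (∀ f ∈ F, Irreducible (fk K f)) →
    (BFn C x D F).Finite ∧
    2 ^ D.T.card * ((BFn C x D F).ncard : ℝ) * (D.N : ℝ) ^ 3 ≤ c * x ^ (6 * dg K)

end Pool.NF
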