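import Pool.Agent.H14.NF.Base
import Pool.Agent.H41.NF.Cnt

/-!
# NF: few polynomials of the family have a bad class (statement)
-/

set_option autoImplicit false

namespace Pool.NF

open Polynomial Matrix Pool.HYP Pool.TOW Pool.AVS Pool.T1 IsDedekindDomain NumberField

/-- BADN: from KEY, the count, and the lower bound for the size of the family.  (Take
`C = max B 1`, `x = Y`, `F = FamN D Y`, and the local data `⟨D.T, D.c, D.γ⟩`: the bad polynomials
are in `BFn C Y D F`, by NST for `StdP`.  `2^#T #BFn N³ ≤ c₁ Y^(6 n) ≤ c₁ c₂ #FamN N³ M`,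
where `M` is the product of the `(Nm P)³` over `T'`; `k₀` with `8 c₁ c₂ M ≤ 2^k₀`, `B ≤ b`.) -/
def BADNStmt : Prop :=
  NSTStmt → NCNTStmt → ∀ (K : Type) [Field K] [NumberField K], (∃ B : ℝ, KeyN K B) →
    (∃ c : ℝ, FamLN K c) →
    (∀ (D : DatN K) (Y : ℕ), D.Ok → ∀ f ∈ FamN D Y, Irreducible (fk K f)) → BadN K

end Pool.NF
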